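import Pool.Agent.ISB.StmtsB

set_option autoImplicit false

namespace Pool.Agent.ISB.H23

open scoped Classical commutatorElement

attribute [local instance 100] LieRing.ofAssociativeRing LieAlgebra.ofAssociativeAlgebra

theorem cva (_hG : GmcStmt) (hD : DopStmt) (hK : KasStmt) : CvaStmt := by
  intro P _ F _ _ r n κ S s hr hs hn hcov
  obtain ⟨d1, d2, d3, d4, d5, d6, d7, d8⟩ := hD P F
  obtain ⟨k1, k2⟩ := hK P F κ
  obtain ⟨ka, kb, kc⟩ := k2 s hs
  refine ⟨?_, ?_, ?_, ?_, ?_, ?_⟩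
  · rintro x ⟨a, p, hp⟩ y ⟨b, q, hq⟩
    exact ⟨a + b + 1, ⁅p, q⁆, d8 a b p q x y hp hq⟩
  · rintro x ⟨a, p, hp⟩
    exact ⟨a, κ p, ka a p x hp⟩
  · rintro x ⟨a, p, hp⟩
    obtain ⟨k, hk, g, y, hy, hpe⟩ := hcov p
    refine ⟨k, hk, a, (κ ^ k) y, ⟨y, hy, rfl⟩, ?_⟩
    have := d7 a p x g⁻¹ hp
    have e : g⁻¹ * p * g⁻¹⁻¹ = (κ ^ k) y := by rw [hpe]; group
    rwa [e] at this
  · rintro k x ⟨a, p, ⟨y, hy, rfl⟩, hp⟩
    refine ⟨a, κ ((κ ^ k) y), ⟨y, hy, ?_⟩, ka a _ x hp⟩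
    show (κ ^ (k + 1)) y = κ ((κ ^ k) y)
    rw [pow_succ']; rfl
  · intro k
    have : κ ^ r = 1 := by ext x; exact hr x
    rw [pow_add, this, mul_one]
  · intro k
    generalize hS' : S.map (κ ^ k).toMonoidHom = S'
    have hS'n : S'.lowerCentralSeries n = ⊥ := by
      rw [← hS', ← Subgroup.map_lowerCentralSeries, hn, Subgroup.map_bot]
    have claim : ∀ cs : List (Module.End F (Dl P F)), (∀ c ∈ cs, c ∈ Hs P F S') →
        ∀ (m : ℕ) (y : Module.End F (Dl P F)),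
          (∃ a, ∃ x ∈ S'.lowerCentralSeries m, IsD P F a x y) →
          ∃ a, ∃ x ∈ S'.lowerCentralSeries (m + cs.length), IsD P F a x (ln y cs) := by
      intro cs
      induction cs with
      | nil => intro _ m y hy; exact hy
      | cons c cs ih =>
        intro hc m y hy
        obtain ⟨a, x, hx, hxy⟩ := hy
        obtain ⟨b, z, hz, hzc⟩ := hc c List.mem_cons_self
        have h1 : ⁅x, z⁆ ∈ S'.lowerCentralSeries (m + 1) := by
          rw [Subgroup.lowerCentralSeries_succ]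
          exact Subgroup.commutator_mem_commutator hx hz
        have := ih (fun c' h => hc c' (List.mem_cons_of_mem _ h)) (m + 1) ⁅y, c⁆
          ⟨a + b + 1, ⁅x, z⁆, h1, d8 a b x z y c hxy hzc⟩
        have e : m + (c :: cs).length = m + 1 + cs.length := by
          rw [List.length_cons]; omega
        rw [e]
        exact this
    intro y hy cs hlen hcs
    obtain ⟨a, x, hx, hxy⟩ := hy
    obtain ⟨b, z, hz, hzy⟩ := claim cs hcs 0 y ⟨a, x, hx, hxy⟩
    rw [zero_add, hlen, hS'n, Subgroup.mem_bot] at hz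
    rw [hz] at hzy
    exact d2 b 1 _ _ hzy (d5 b)

end Pool.Agent.ISB.H23
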